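import Mathlib

/-! L² inverse Fourier transform of a function in L¹ ∩ L² is given by the integral. -/

namespace Pool.Agent.X282.WV

open MeasureTheory FourierTransform SchwartzMap

noncomputable section

theorem integral_fourierInv_flip (f g : ℝ → ℂ) (hf : Integrable f) (hg : Integrable g) :
    ∫ ξ, (𝓕⁻ f ξ) * g ξ = ∫ x, f x * 𝓕⁻ g x := by
  have h := VectorFourier.integral_fourierIntegral_smul_eq_flip (μ := volume) (ν := volume)
    (L := -innerₗ ℝ) (e := Real.fourierChar) (f := f) (g := g) Real.continuous_fourierChar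
    (by simp; fun_prop) hf hg
  have e1 : ∀ u : ℝ → ℂ, VectorFourier.fourierIntegral Real.fourierChar volume (-innerₗ ℝ) u
      = 𝓕⁻ u := by
    intro u; ext w
    simp [VectorFourier.fourierIntegral, Real.fourierInv_eq]
  have e2 : ∀ u : ℝ → ℂ, VectorFourier.fourierIntegral Real.fourierChar volume
      (-innerₗ ℝ).flip u = 𝓕⁻ u := by
    intro u; ext w
    simp [VectorFourier.fourierIntegral, Real.fourierInv_eq, real_inner_comm, mul_comm]
  rw [e1, e2] at h
  simpa using h

theorem fourierInv_ae (h : ℝ → ℂ) (h1 : Integrable h) (h2 : MemLp h 2 volume) :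
    ((𝓕⁻ (h2.toLp h) : Lp ℂ 2 (volume : Measure ℝ)) : ℝ → ℂ) =ᵐ[volume] 𝓕⁻ h := by
  have hcont : Continuous (𝓕⁻ h : ℝ → ℂ) := by
    have := VectorFourier.fourierIntegral_continuous (μ := volume)
      (L := -innerₗ ℝ) (e := Real.fourierChar) (f := h) Real.continuous_fourierChar
      (by simp; fun_prop) h1
    have e1 : VectorFourier.fourierIntegral Real.fourierChar volume (-innerₗ ℝ) h
      = 𝓕⁻ h := by
      ext w
      simp [VectorFourier.fourierIntegral, Real.fourierInv_eq]
    rwa [e1] at this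
  apply ae_eq_of_integral_contDiff_smul_eq
  · exact (Lp.memLp _).locallyIntegrable (by norm_num)
  · exact hcont.locallyIntegrable
  · intro g g_smooth g_cpt
    have hg₁ : HasCompactSupport (Complex.ofRealCLM ∘ g) := g_cpt.comp_left rfl
    have hg₂ : ContDiff ℝ (⊤ : ℕ∞) (Complex.ofRealCLM ∘ g) := by fun_prop
    set φ : 𝓢(ℝ, ℂ) := hg₁.toSchwartzMap hg₂ with hφ
    have hφx : ∀ x, φ x = (g x : ℂ) := fun x => rfl
    have l1 : ∫ x, g x • (𝓕⁻ (h2.toLp h) : Lp ℂ 2 (volume : Measure ℝ)) x
        = (Lp.toTemperedDistribution (𝓕⁻ (h2.toLp h))) φ := by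
      rw [Lp.toTemperedDistribution_apply]
      refine integral_congr_ae (Filter.Eventually.of_forall fun x => ?_)
      simp [hφx]
    rw [l1, ← Lp.fourierInv_toTemperedDistribution_eq]
    rw [TemperedDistribution.fourierInv_apply, Lp.toTemperedDistribution_apply]
    have l2 : ∫ x, g x • 𝓕⁻ h x = ∫ x, φ x * 𝓕⁻ h x := by
      refine integral_congr_ae (Filter.Eventually.of_forall fun x => ?_)
      simp [hφx]
    rw [l2, ← integral_fourierInv_flip φ h φ.integrable h1]
    refine integral_congr_ae ?_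
    filter_upwards [h2.coeFn_toLp] with x hx
    rw [hx, smul_eq_mul, SchwartzMap.fourierInv_coe]

end

end Pool.Agent.X282.WV
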