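import Mathlib

/-! A family of vectors of equal norms with a Parseval identity is an orthogonal basis. -/

namespace Pool.Agent.X282.WV

open MeasureTheory

theorem basis_of_parseval {ι E : Type*} [NormedAddCommGroup E] [InnerProductSpace ℂ E]
    [CompleteSpace E] (w : ι → E) (c : ℝ) (hc : 0 < c) (hn : ∀ i, ‖w i‖ ^ 2 = c)
    (hp : ∀ h : E, ∑' i, ‖inner ℂ (w i) h‖ₑ ^ 2 = ENNReal.ofReal (c * ‖h‖ ^ 2)) :
    (∀ i, w i ≠ 0) ∧ (Pairwise fun i j => inner ℂ (w i) (w j) = 0) ∧
      (Submodule.span ℂ (Set.range w)).topologicalClosure = ⊤ := by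
  classical
  refine ⟨?_, ?_, ?_⟩
  · intro i hi
    have := hn i
    rw [hi] at this
    simp at this
    linarith
  · intro i j hij
    have h1 := ENNReal.sum_le_tsum (f := fun i => ‖inner ℂ (w i) (w j)‖ₑ ^ 2) {i, j}
    rw [hp, hn, Finset.sum_pair hij] at h1
    have h2 : ‖inner ℂ (w j) (w j)‖ₑ ^ 2 = ENNReal.ofReal (c * c) := by
      have h5 : ‖inner ℂ (w j) (w j)‖ = c := by
        rw [inner_self_eq_norm_sq_to_K, norm_pow, RCLike.norm_ofReal, abs_of_nonneg (norm_nonneg _),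
          hn]
      rw [← ofReal_norm_eq_enorm, h5, ← ENNReal.ofReal_pow hc.le, sq]
    rw [h2] at h1
    have h3 : ‖inner ℂ (w i) (w j)‖ₑ ^ 2 = 0 := by
      have h4 : ‖inner ℂ (w i) (w j)‖ₑ ^ 2 + ENNReal.ofReal (c * c) ≤ 0 + ENNReal.ofReal (c * c) := by
        simpa using h1
      have := (ENNReal.add_le_add_iff_right ENNReal.ofReal_ne_top).1 h4
      simpa using this
    simpa using h3
  · rw [Submodule.topologicalClosure_eq_top_iff, Submodule.eq_bot_iff]
    intro h hh
    have h1 : ∀ i, inner ℂ (w i) h = 0 := fun i =>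
      (Submodule.mem_orthogonal _ _).1 hh _ (Submodule.subset_span ⟨i, rfl⟩)
    have h2 := hp h
    simp only [h1] at h2
    simp at h2
    have h3 : c * ‖h‖ ^ 2 ≤ 0 := h2
    by_contra hne
    have : 0 < c * ‖h‖ ^ 2 := by positivity
    linarith

end Pool.Agent.X282.WV
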