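import Mathlib

/-! Parseval on an interval of length one, in extended nonnegative form, and substitutions. -/

namespace Pool.Agent.X282.WV

open MeasureTheory Set

noncomputable section

theorem parseval_Ioc (f : ℝ → ℂ) (a b : ℝ) (hab : b - a = 1)
    (hf : MemLp f 2 (volume.restrict (Ioc a b))) :
    ∑' k : ℤ, ‖∫ x in a..b, Complex.exp (2 * Real.pi * Complex.I * k * x) * f x‖ₑ ^ 2
      = ∫⁻ x in Ioc a b, ‖f x‖ₑ ^ 2 := by
  have hlt : a < b := by linarith
  have h := hasSum_sq_fourierCoeffOn hlt hf
  have hc : ∀ k : ℤ, fourierCoeffOn hlt f (-k)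
      = ∫ x in a..b, Complex.exp (2 * Real.pi * Complex.I * k * x) * f x := by
    intro k
    rw [fourierCoeffOn_eq_integral]
    simp only [neg_neg, smul_eq_mul]
    rw [hab]
    simp
  have h2 := (Equiv.neg ℤ).hasSum_iff.2 h
  have h3 : HasSum (fun k : ℤ =>
      ‖∫ x in a..b, Complex.exp (2 * Real.pi * Complex.I * k * x) * f x‖ ^ 2)
      (∫ x in a..b, ‖f x‖ ^ 2) := by
    have : (fun k : ℤ => ‖∫ x in a..b, Complex.exp (2 * Real.pi * Complex.I * k * x) * f x‖ ^ 2)
        = (fun i => ‖fourierCoeffOn hlt f i‖ ^ 2) ∘ (Equiv.neg ℤ) := by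
      ext k
      simp only [Function.comp, Equiv.neg_apply, hc]
    rw [this]
    convert h2 using 1
    rw [hab]; simp
  have h4 : ∑' k : ℤ, ‖∫ x in a..b, Complex.exp (2 * Real.pi * Complex.I * k * x) * f x‖ₑ ^ 2
      = ENNReal.ofReal (∫ x in a..b, ‖f x‖ ^ 2) := by
    rw [← h3.tsum_eq, ENNReal.ofReal_tsum_of_nonneg (fun _ => by positivity) h3.summable]
    refine tsum_congr fun k => ?_
    rw [ENNReal.ofReal_pow (norm_nonneg _), ofReal_norm]
  rw [h4, intervalIntegral.integral_of_le hlt.le,
    ofReal_integral_eq_lintegral_ofReal hf.norm.integrable_sq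
      (Filter.Eventually.of_forall fun _ => by positivity)]
  refine lintegral_congr fun x => ?_
  rw [ENNReal.ofReal_pow (norm_nonneg _), ofReal_norm]

/-- Affine substitution in a set integral of a nonnegative function. -/
theorem lintegral_affine (φ : ℝ → ENNReal) (a b c d : ℝ) (hc : 0 < c) :
    ∫⁻ x in Ioc (c * a + d) (c * b + d), φ x
      = ENNReal.ofReal c * ∫⁻ y in Ioc a b, φ (c * y + d) := by
  rw [← lintegral_indicator measurableSet_Ioc, ← lintegral_indicator measurableSet_Ioc]
  have h1 : ∀ y, (Ioc a b).indicator (fun y => φ (c * y + d)) y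
      = (fun x => (Ioc (c * a + d) (c * b + d)).indicator φ (x + d)) (c * y) := by
    intro y
    change _ = (Ioc (c * a + d) (c * b + d)).indicator φ (c * y + d)
    by_cases hy : y ∈ Ioc a b
    · rw [indicator_of_mem hy, indicator_of_mem]
      exact ⟨by have := hy.1; nlinarith, by have := hy.2; nlinarith⟩
    · rw [indicator_of_notMem hy, indicator_of_notMem]
      intro hy'
      apply hy
      constructor
      · by_contra hcon
        push Not at hcon
        have := hy'.1
        nlinarith
      · by_contra hcon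
        push Not at hcon
        have := hy'.2
        nlinarith
  simp_rw [h1]
  have hne : c ≠ 0 := hc.ne'
  set ψ : ℝ → ENNReal := (Ioc (c * a + d) (c * b + d)).indicator φ with hψ
  have h2 : ∫⁻ y, ψ (c * y + d) = ∫⁻ x, ψ (x + d) ∂(Measure.map (c * ·) volume) := by
    exact (MeasureTheory.lintegral_map_equiv (μ := (volume : Measure ℝ)) (fun x => ψ (x + d))
      (Homeomorph.mulLeft₀ c hne).toMeasurableEquiv).symm
  rw [h2, Real.map_volume_mul_left hne, lintegral_smul_measure, lintegral_add_right_eq_self ψ d,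
    smul_eq_mul, ← mul_assoc, ← ENNReal.ofReal_mul hc.le, abs_of_pos (inv_pos.2 hc),
    mul_inv_cancel₀ hne]
  simp

end

end Pool.Agent.X282.WV
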