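import Pool.Agent.X282.WV.C1

/-! The sum over the translations at one scale. -/

namespace Pool.Agent.X282.WV

open MeasureTheory Set

noncomputable section

/-- Half-open version of the wavelet set. -/
def OmI : Set ℝ := Ioc (-24/7) (-16/5) ∪ Ioc (-8/7) (-3/7) ∪ Ioc (-1/5) (-1/7)
  ∪ Ioc (1/7) (1/5) ∪ Ioc (3/7) (8/7) ∪ Ioc (16/5) (24/7)

theorem measurableSet_OmI : MeasurableSet OmI := by
  unfold OmI
  exact ((((measurableSet_Ioc.union measurableSet_Ioc).union measurableSet_Ioc).union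
    measurableSet_Ioc).union measurableSet_Ioc).union measurableSet_Ioc

theorem OmI_sub : OmI ⊆ Ioc (-29/7) (27/7) := by
  intro y hy
  rcases hy with ((((h|h)|h)|h)|h)|h <;> obtain ⟨h1, h2⟩ := h <;> constructor <;> linarith

theorem volume_OmI_lt : volume OmI < ⊤ :=
  (measure_mono OmI_sub).trans_lt (by simp)

theorem mem1 {y : ℝ} (h1 : -24/7 < y) (h2 : y ≤ -16/5) : y ∈ OmI :=
  Or.inl (Or.inl (Or.inl (Or.inl (Or.inl ⟨h1, h2⟩))))
theorem mem2 {y : ℝ} (h1 : -8/7 < y) (h2 : y ≤ -3/7) : y ∈ OmI :=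
  Or.inl (Or.inl (Or.inl (Or.inl (Or.inr ⟨h1, h2⟩))))
theorem mem3 {y : ℝ} (h1 : -1/5 < y) (h2 : y ≤ -1/7) : y ∈ OmI :=
  Or.inl (Or.inl (Or.inl (Or.inr ⟨h1, h2⟩)))
theorem mem4 {y : ℝ} (h1 : 1/7 < y) (h2 : y ≤ 1/5) : y ∈ OmI :=
  Or.inl (Or.inl (Or.inr ⟨h1, h2⟩))
theorem mem5 {y : ℝ} (h1 : 3/7 < y) (h2 : y ≤ 8/7) : y ∈ OmI :=
  Or.inl (Or.inr ⟨h1, h2⟩)
theorem mem6 {y : ℝ} (h1 : 16/5 < y) (h2 : y ≤ 24/7) : y ∈ OmI :=
  Or.inr ⟨h1, h2⟩

/-- The twisted periodisation. -/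
def Per (g : ℝ → ℂ) (x : ℝ) : ℂ :=
  ∑ j ∈ Finset.range 8, (-1 : ℂ) ^ j * OmI.indicator g (x + ((j : ℝ) - 4))

theorem per_expand (g : ℝ → ℂ) (x : ℝ) : Per g x =
    OmI.indicator g (x - 4) - OmI.indicator g (x - 3) + OmI.indicator g (x - 2)
    - OmI.indicator g (x - 1) + OmI.indicator g x - OmI.indicator g (x + 1)
    + OmI.indicator g (x + 2) - OmI.indicator g (x + 3) := by
  unfold Per
  simp only [Finset.sum_range_succ, Finset.sum_range_zero]
  have e0 : x + (((0:ℕ) : ℝ) - 4) = x - 4 := by push_cast; ring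
  have e1 : x + (((1:ℕ) : ℝ) - 4) = x - 3 := by push_cast; ring
  have e2 : x + (((2:ℕ) : ℝ) - 4) = x - 2 := by push_cast; ring
  have e3 : x + (((3:ℕ) : ℝ) - 4) = x - 1 := by push_cast; ring
  have e4 : x + (((4:ℕ) : ℝ) - 4) = x := by push_cast; ring
  have e5 : x + (((5:ℕ) : ℝ) - 4) = x + 1 := by push_cast; ring
  have e6 : x + (((6:ℕ) : ℝ) - 4) = x + 2 := by push_cast; ring
  have e7 : x + (((7:ℕ) : ℝ) - 4) = x + 3 := by push_cast; ring
  rw [e0, e1, e2, e3, e4, e5, e6, e7]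
  ring

theorem per_p1 (g : ℝ → ℂ) {x : ℝ} (hx : x ∈ Ioc (-1/7 : ℝ) (1/7)) :
    Per g x = -(g (x + 1) + g (x - 1)) := by
  obtain ⟨a, b⟩ := hx
  rw [per_expand]
  rw [indicator_of_notMem (a := x - 4) (by
      rintro (((((h|h)|h)|h)|h)|h) <;> (obtain ⟨h1, h2⟩ := h; norm_num at h1 h2; linarith)), indicator_of_notMem (a := x - 3) (by
      rintro (((((h|h)|h)|h)|h)|h) <;> (obtain ⟨h1, h2⟩ := h; norm_num at h1 h2; linarith)),
    indicator_of_notMem (a := x - 2) (by
      rintro (((((h|h)|h)|h)|h)|h) <;> (obtain ⟨h1, h2⟩ := h; norm_num at h1 h2; linarith)),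
    indicator_of_mem (a := x - 1) (mem2 (by linarith) (by linarith)),
    indicator_of_notMem (a := x) (by
      rintro (((((h|h)|h)|h)|h)|h) <;> (obtain ⟨h1, h2⟩ := h; norm_num at h1 h2; linarith)),
    indicator_of_mem (a := x + 1) (mem5 (by linarith) (by linarith)),
    indicator_of_notMem (a := x + 2) (by
      rintro (((((h|h)|h)|h)|h)|h) <;> (obtain ⟨h1, h2⟩ := h; norm_num at h1 h2; linarith)), indicator_of_notMem (a := x + 3) (by
      rintro (((((h|h)|h)|h)|h)|h) <;> (obtain ⟨h1, h2⟩ := h; norm_num at h1 h2; linarith))]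
  ring

theorem per_p2 (g : ℝ → ℂ) {x : ℝ} (hx : x ∈ Ioc (1/7 : ℝ) (1/5)) :
    Per g x = g x - g (x - 1) := by
  obtain ⟨a, b⟩ := hx
  rw [per_expand]
  rw [indicator_of_notMem (a := x - 4) (by
      rintro (((((h|h)|h)|h)|h)|h) <;> (obtain ⟨h1, h2⟩ := h; norm_num at h1 h2; linarith)), indicator_of_notMem (a := x - 3) (by
      rintro (((((h|h)|h)|h)|h)|h) <;> (obtain ⟨h1, h2⟩ := h; norm_num at h1 h2; linarith)),
    indicator_of_notMem (a := x - 2) (by
      rintro (((((h|h)|h)|h)|h)|h) <;> (obtain ⟨h1, h2⟩ := h; norm_num at h1 h2; linarith)),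
    indicator_of_mem (a := x - 1) (mem2 (by linarith) (by linarith)),
    indicator_of_mem (a := x) (mem4 (by linarith) (by linarith)),
    indicator_of_notMem (a := x + 1) (by
      rintro (((((h|h)|h)|h)|h)|h) <;> (obtain ⟨h1, h2⟩ := h; norm_num at h1 h2; linarith)),
    indicator_of_notMem (a := x + 2) (by
      rintro (((((h|h)|h)|h)|h)|h) <;> (obtain ⟨h1, h2⟩ := h; norm_num at h1 h2; linarith)), indicator_of_notMem (a := x + 3) (by
      rintro (((((h|h)|h)|h)|h)|h) <;> (obtain ⟨h1, h2⟩ := h; norm_num at h1 h2; linarith))]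
  ring

theorem per_p3 (g : ℝ → ℂ) {x : ℝ} (hx : x ∈ Ioc (1/5 : ℝ) (3/7)) :
    Per g x = -(g (x + 3) + g (x - 1)) := by
  obtain ⟨a, b⟩ := hx
  rw [per_expand]
  rw [indicator_of_notMem (a := x - 4) (by
      rintro (((((h|h)|h)|h)|h)|h) <;> (obtain ⟨h1, h2⟩ := h; norm_num at h1 h2; linarith)), indicator_of_notMem (a := x - 3) (by
      rintro (((((h|h)|h)|h)|h)|h) <;> (obtain ⟨h1, h2⟩ := h; norm_num at h1 h2; linarith)),
    indicator_of_notMem (a := x - 2) (by
      rintro (((((h|h)|h)|h)|h)|h) <;> (obtain ⟨h1, h2⟩ := h; norm_num at h1 h2; linarith)),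
    indicator_of_mem (a := x - 1) (mem2 (by linarith) (by linarith)),
    indicator_of_notMem (a := x) (by
      rintro (((((h|h)|h)|h)|h)|h) <;> (obtain ⟨h1, h2⟩ := h; norm_num at h1 h2; linarith)),
    indicator_of_notMem (a := x + 1) (by
      rintro (((((h|h)|h)|h)|h)|h) <;> (obtain ⟨h1, h2⟩ := h; norm_num at h1 h2; linarith)),
    indicator_of_notMem (a := x + 2) (by
      rintro (((((h|h)|h)|h)|h)|h) <;> (obtain ⟨h1, h2⟩ := h; norm_num at h1 h2; linarith)),
    indicator_of_mem (a := x + 3) (mem6 (by linarith) (by linarith))]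
  ring

theorem per_p4 (g : ℝ → ℂ) {x : ℝ} (hx : x ∈ Ioc (3/7 : ℝ) (4/7)) :
    Per g x = g x - g (x - 1) := by
  obtain ⟨a, b⟩ := hx
  rw [per_expand]
  rw [indicator_of_notMem (a := x - 4) (by
      rintro (((((h|h)|h)|h)|h)|h) <;> (obtain ⟨h1, h2⟩ := h; norm_num at h1 h2; linarith)), indicator_of_notMem (a := x - 3) (by
      rintro (((((h|h)|h)|h)|h)|h) <;> (obtain ⟨h1, h2⟩ := h; norm_num at h1 h2; linarith)),
    indicator_of_notMem (a := x - 2) (by
      rintro (((((h|h)|h)|h)|h)|h) <;> (obtain ⟨h1, h2⟩ := h; norm_num at h1 h2; linarith)),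
    indicator_of_mem (a := x - 1) (mem2 (by linarith) (by linarith)),
    indicator_of_mem (a := x) (mem5 (by linarith) (by linarith)),
    indicator_of_notMem (a := x + 1) (by
      rintro (((((h|h)|h)|h)|h)|h) <;> (obtain ⟨h1, h2⟩ := h; norm_num at h1 h2; linarith)),
    indicator_of_notMem (a := x + 2) (by
      rintro (((((h|h)|h)|h)|h)|h) <;> (obtain ⟨h1, h2⟩ := h; norm_num at h1 h2; linarith)), indicator_of_notMem (a := x + 3) (by
      rintro (((((h|h)|h)|h)|h)|h) <;> (obtain ⟨h1, h2⟩ := h; norm_num at h1 h2; linarith))]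
  ring

theorem per_p5 (g : ℝ → ℂ) {x : ℝ} (hx : x ∈ Ioc (4/7 : ℝ) (4/5)) :
    Per g x = g x + g (x - 4) := by
  obtain ⟨a, b⟩ := hx
  rw [per_expand]
  rw [indicator_of_mem (a := x - 4) (mem1 (by linarith) (by linarith)),
    indicator_of_notMem (a := x - 3) (by
      rintro (((((h|h)|h)|h)|h)|h) <;> (obtain ⟨h1, h2⟩ := h; norm_num at h1 h2; linarith)),
    indicator_of_notMem (a := x - 2) (by
      rintro (((((h|h)|h)|h)|h)|h) <;> (obtain ⟨h1, h2⟩ := h; norm_num at h1 h2; linarith)),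
    indicator_of_notMem (a := x - 1) (by
      rintro (((((h|h)|h)|h)|h)|h) <;> (obtain ⟨h1, h2⟩ := h; norm_num at h1 h2; linarith)),
    indicator_of_mem (a := x) (mem5 (by linarith) (by linarith)),
    indicator_of_notMem (a := x + 1) (by
      rintro (((((h|h)|h)|h)|h)|h) <;> (obtain ⟨h1, h2⟩ := h; norm_num at h1 h2; linarith)),
    indicator_of_notMem (a := x + 2) (by
      rintro (((((h|h)|h)|h)|h)|h) <;> (obtain ⟨h1, h2⟩ := h; norm_num at h1 h2; linarith)), indicator_of_notMem (a := x + 3) (by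
      rintro (((((h|h)|h)|h)|h)|h) <;> (obtain ⟨h1, h2⟩ := h; norm_num at h1 h2; linarith))]
  ring

theorem per_p6 (g : ℝ → ℂ) {x : ℝ} (hx : x ∈ Ioc (4/5 : ℝ) (6/7)) :
    Per g x = g x - g (x - 1) := by
  obtain ⟨a, b⟩ := hx
  rw [per_expand]
  rw [indicator_of_notMem (a := x - 4) (by
      rintro (((((h|h)|h)|h)|h)|h) <;> (obtain ⟨h1, h2⟩ := h; norm_num at h1 h2; linarith)), indicator_of_notMem (a := x - 3) (by
      rintro (((((h|h)|h)|h)|h)|h) <;> (obtain ⟨h1, h2⟩ := h; norm_num at h1 h2; linarith)),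
    indicator_of_notMem (a := x - 2) (by
      rintro (((((h|h)|h)|h)|h)|h) <;> (obtain ⟨h1, h2⟩ := h; norm_num at h1 h2; linarith)),
    indicator_of_mem (a := x - 1) (mem3 (by linarith) (by linarith)),
    indicator_of_mem (a := x) (mem5 (by linarith) (by linarith)),
    indicator_of_notMem (a := x + 1) (by
      rintro (((((h|h)|h)|h)|h)|h) <;> (obtain ⟨h1, h2⟩ := h; norm_num at h1 h2; linarith)),
    indicator_of_notMem (a := x + 2) (by
      rintro (((((h|h)|h)|h)|h)|h) <;> (obtain ⟨h1, h2⟩ := h; norm_num at h1 h2; linarith)), indicator_of_notMem (a := x + 3) (by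
      rintro (((((h|h)|h)|h)|h)|h) <;> (obtain ⟨h1, h2⟩ := h; norm_num at h1 h2; linarith))]
  ring

theorem memLp_per {g : ℝ → ℂ} (hg : MemLp g 2 volume) : MemLp (Per g) 2 volume := by
  unfold Per
  refine memLp_finsetSum _ fun j _ => MemLp.const_mul ?_ _
  exact (hg.indicator measurableSet_OmI).comp_measurePreserving
    (measurePreserving_add_right volume ((j : ℝ) - 4))

theorem memLp_expper {g : ℝ → ℂ} (hg : MemLp g 2 volume) :
    MemLp (fun x : ℝ => Complex.exp (Real.pi * Complex.I * x) * Per g x) 2 volume := by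
  refine (memLp_per hg).of_le ?_ (Filter.Eventually.of_forall fun x => ?_)
  · exact (Continuous.aestronglyMeasurable (by fun_prop)).mul (memLp_per hg).1
  · rw [norm_mul]
    have : ‖Complex.exp (Real.pi * Complex.I * x)‖ = 1 := by
      have : (Real.pi : ℂ) * Complex.I * x = ((Real.pi * x : ℝ) : ℂ) * Complex.I := by
        push_cast; ring
      rw [this, Complex.norm_exp_ofReal_mul_I]
    rw [this, one_mul]

theorem exp_shift (k : ℤ) (x : ℝ) (j : ℕ) :
    Complex.exp (2 * Real.pi * Complex.I * (k + 1/2) * ((x + ((j : ℝ) - 4) : ℝ) : ℂ))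
      = Complex.exp (2 * Real.pi * Complex.I * k * x) *
        (Complex.exp (Real.pi * Complex.I * x) * (-1) ^ j) := by
  have h1 : (2 * Real.pi * Complex.I * (k + 1/2) * ((x + ((j : ℝ) - 4) : ℝ) : ℂ) : ℂ)
      = 2 * Real.pi * Complex.I * k * x + (Real.pi * Complex.I * x + j * (Real.pi * Complex.I))
        + (((k * (j - 4) - 2 : ℤ)) : ℂ) * (2 * Real.pi * Complex.I) := by
    push_cast
    ring
  rw [h1, Complex.exp_add, Complex.exp_int_mul_two_pi_mul_I, mul_one, Complex.exp_add,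
    Complex.exp_add, Complex.exp_nat_mul, Complex.exp_pi_mul_I]

end

end Pool.Agent.X282.WV
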