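import Pool.Agent.X282.WV.C2

/-! The sum over the translations at one scale: the identity. -/

namespace Pool.Agent.X282.WV

open MeasureTheory Set

noncomputable section

theorem integrable_ind {g : ℝ → ℂ} (hg : MemLp g 2 volume) :
    Integrable (OmI.indicator g) volume := by
  have : IsFiniteMeasure (volume.restrict OmI) := ⟨by simpa using volume_OmI_lt⟩
  rw [integrable_indicator_iff measurableSet_OmI]
  exact (hg.restrict OmI).integrable (by norm_num)

theorem norm_e (c : ℝ) (x : ℝ) : ‖Complex.exp (2 * Real.pi * Complex.I * c * x)‖ = 1 := by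
  have : (2 * Real.pi * Complex.I * c * x : ℂ) = ((2 * Real.pi * c * x : ℝ) : ℂ) * Complex.I := by
    push_cast; ring
  rw [this, Complex.norm_exp_ofReal_mul_I]

theorem coeff_eq {g : ℝ → ℂ} (hg : MemLp g 2 volume) (k : ℤ) :
    ∫ y in OmI, Complex.exp (2 * Real.pi * Complex.I * (k + 1/2) * y) * g y
      = ∫ x in (-1/7 : ℝ)..(6/7), Complex.exp (2 * Real.pi * Complex.I * k * x) *
        (Complex.exp (Real.pi * Complex.I * x) * Per g x) := by
  set v : ℝ → ℂ := fun y =>
    Complex.exp (2 * Real.pi * Complex.I * (k + 1/2) * y) * OmI.indicator g y with hv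
  have hvi : Integrable v volume := by
    refine (integrable_ind hg).bdd_mul (c := 1) ?_ ?_
    · exact Continuous.aestronglyMeasurable (by fun_prop)
    · refine Filter.Eventually.of_forall fun y => ?_
      have := norm_e (k + 1/2) y
      push_cast at this
      rw [this]
  have h1 : ∫ y in OmI, Complex.exp (2 * Real.pi * Complex.I * (k + 1/2) * y) * g y
      = ∫ y, v y := by
    rw [← integral_indicator measurableSet_OmI]
    refine integral_congr_ae (Filter.Eventually.of_forall fun y => ?_)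
    by_cases hy : y ∈ OmI
    · simp [hv, hy]
    · simp [hv, hy]
  have h2 : ∫ y, v y = ∫ y in (-29/7 : ℝ)..(27/7), v y := by
    rw [intervalIntegral.integral_of_le (by norm_num)]
    symm
    apply setIntegral_eq_integral_of_forall_compl_eq_zero
    intro y hy
    have : y ∉ OmI := fun h => hy (OmI_sub h)
    simp [hv, this]
  have h3 : ∫ y in (-29/7 : ℝ)..(27/7), v y
      = ∑ j ∈ Finset.range 8, ∫ x in (-1/7 : ℝ)..(6/7), v (x + ((j : ℝ) - 4)) := by
    have := intervalIntegral.sum_integral_adjacent_intervals (μ := volume) (f := v)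
      (a := fun j : ℕ => (j : ℝ) - 29/7) (n := 8) (fun j _ => hvi.intervalIntegrable)
    have e1 : (((0 : ℕ) : ℝ) - 29/7) = -29/7 := by norm_num
    have e2 : (((8 : ℕ) : ℝ) - 29/7) = 27/7 := by norm_num
    simp only [e1, e2] at this
    rw [← this]
    refine Finset.sum_congr rfl fun j _ => ?_
    rw [intervalIntegral.integral_comp_add_right]
    congr 1
    · ring
    · push_cast; ring
  rw [h1, h2, h3, ← intervalIntegral.integral_finsetSum]
  · refine intervalIntegral.integral_congr fun x _ => ?_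
    simp only [hv, Per]
    rw [Finset.mul_sum, Finset.mul_sum]
    refine Finset.sum_congr rfl fun j _ => ?_
    rw [exp_shift]
    ring
  · intro j _
    exact (hvi.comp_add_right ((j : ℝ) - 4)).intervalIntegrable

theorem scale_sum {g : ℝ → ℂ} (hg : MemLp g 2 volume) :
    ∑' k : ℤ, ‖∫ y in OmI, Complex.exp (2 * Real.pi * Complex.I * (k + 1/2) * y) * g y‖ₑ ^ 2
      = ∫⁻ x in Ioc (-1/7 : ℝ) (6/7), ‖Per g x‖ₑ ^ 2 := by
  simp_rw [coeff_eq hg]
  rw [parseval_Ioc _ (-1/7) (6/7) (by norm_num) ((memLp_expper hg).restrict _)]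
  refine lintegral_congr fun x => ?_
  rw [enorm_mul]
  have : ‖Complex.exp (Real.pi * Complex.I * x)‖ₑ = 1 := by
    have h : (Real.pi : ℂ) * Complex.I * x = ((Real.pi * x : ℝ) : ℂ) * Complex.I := by
      push_cast; ring
    rw [← ofReal_norm, h, Complex.norm_exp_ofReal_mul_I, ENNReal.ofReal_one]
  rw [this, one_mul]

theorem split2 (φ : ℝ → ENNReal) (a b c : ℝ) (h1 : a ≤ b) (h2 : b ≤ c) :
    ∫⁻ x in Ioc a c, φ x = (∫⁻ x in Ioc a b, φ x) + ∫⁻ x in Ioc b c, φ x := by
  rw [← Ioc_union_Ioc_eq_Ioc h1 h2, lintegral_union measurableSet_Ioc]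
  exact Ioc_disjoint_Ioc_of_le le_rfl

theorem scale_split {g : ℝ → ℂ} (hg : MemLp g 2 volume) :
    ∑' k : ℤ, ‖∫ y in OmI, Complex.exp (2 * Real.pi * Complex.I * (k + 1/2) * y) * g y‖ₑ ^ 2
      = (∫⁻ x in Ioc (-1/7 : ℝ) (1/7), ‖g (x + 1) + g (x - 1)‖ₑ ^ 2)
        + ((∫⁻ x in Ioc (1/7 : ℝ) (1/5), ‖g x - g (x - 1)‖ₑ ^ 2)
        + ((∫⁻ x in Ioc (1/5 : ℝ) (3/7), ‖g (x + 3) + g (x - 1)‖ₑ ^ 2)
        + ((∫⁻ x in Ioc (3/7 : ℝ) (4/7), ‖g x - g (x - 1)‖ₑ ^ 2)
        + ((∫⁻ x in Ioc (4/7 : ℝ) (4/5), ‖g x + g (x - 4)‖ₑ ^ 2)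
        + (∫⁻ x in Ioc (4/5 : ℝ) (6/7), ‖g x - g (x - 1)‖ₑ ^ 2))))) := by
  rw [scale_sum hg, split2 _ (-1/7) (1/7) (6/7) (by norm_num) (by norm_num),
    split2 _ (1/7) (1/5) (6/7) (by norm_num) (by norm_num),
    split2 _ (1/5) (3/7) (6/7) (by norm_num) (by norm_num),
    split2 _ (3/7) (4/7) (6/7) (by norm_num) (by norm_num),
    split2 _ (4/7) (4/5) (6/7) (by norm_num) (by norm_num)]
  congr 1
  · refine setLIntegral_congr_fun measurableSet_Ioc fun x hx => ?_
    simp only [per_p1 g hx, enorm_neg]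
  congr 1
  · refine setLIntegral_congr_fun measurableSet_Ioc fun x hx => ?_
    simp only [per_p2 g hx]
  congr 1
  · refine setLIntegral_congr_fun measurableSet_Ioc fun x hx => ?_
    simp only [per_p3 g hx, enorm_neg]
  congr 1
  · refine setLIntegral_congr_fun measurableSet_Ioc fun x hx => ?_
    simp only [per_p4 g hx]
  congr 1
  · refine setLIntegral_congr_fun measurableSet_Ioc fun x hx => ?_
    simp only [per_p5 g hx]
  · refine setLIntegral_congr_fun measurableSet_Ioc fun x hx => ?_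
    simp only [per_p6 g hx]

end

end Pool.Agent.X282.WV
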