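import Pool.Agent.X282.WV.C3

/-! The sum over all scales. -/

namespace Pool.Agent.X282.WV

open MeasureTheory Set

noncomputable section

/-- Unitary dilation. -/
def gs (h : ℝ → ℂ) (n : ℤ) (y : ℝ) : ℂ := (Real.sqrt ((2:ℝ) ^ n) : ℂ) * h ((2:ℝ) ^ n * y)

theorem gs_add (h : ℝ → ℂ) (n : ℤ) (m : ℕ) (y : ℝ) :
    gs h (n + m) y = (Real.sqrt ((2:ℝ) ^ m) : ℂ) * gs h n ((2:ℝ) ^ m * y) := by
  unfold gs
  rw [zpow_add₀ (by norm_num), zpow_natCast, Real.sqrt_mul (by positivity), Complex.ofReal_mul,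
    ← mul_assoc ((2:ℝ) ^ n)]
  ring

theorem enorm_sq_sqrt (c : ℝ) (hc : 0 ≤ c) (z : ℂ) :
    ‖(Real.sqrt c : ℂ) * z‖ₑ ^ 2 = ENNReal.ofReal c * ‖z‖ₑ ^ 2 := by
  rw [enorm_mul, mul_pow]
  congr 1
  rw [← ofReal_norm, ← ENNReal.ofReal_pow (norm_nonneg _), Complex.norm_real,
    Real.norm_of_nonneg (Real.sqrt_nonneg _), Real.sq_sqrt hc]

theorem subst_sum (h : ℝ → ℂ) (n : ℤ) (m : ℕ) (a b d : ℝ) :
    ∫⁻ x in Ioc ((2:ℝ) ^ m * a + d) ((2:ℝ) ^ m * b + d),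
        ‖gs h n (x - d) + gs h n (x - d - (2:ℝ) ^ m)‖ₑ ^ 2
      = ∫⁻ y in Ioc a b, ‖gs h (n + m) y + gs h (n + m) (y - 1)‖ₑ ^ 2 := by
  rw [lintegral_affine _ a b _ d (by positivity)]
  rw [← lintegral_const_mul' _ _ ENNReal.ofReal_ne_top]
  refine lintegral_congr fun y => ?_
  rw [gs_add, gs_add, ← mul_add, enorm_sq_sqrt _ (by positivity)]
  congr 4
  · congr 1; ring
  · congr 1; ring

theorem parallel (a b : ℂ) : ‖a - b‖ₑ ^ 2 + ‖a + b‖ₑ ^ 2 = 2 * (‖a‖ₑ ^ 2 + ‖b‖ₑ ^ 2) := by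
  have h := parallelogram_law_with_norm ℝ a b
  simp only [← ofReal_norm, ← ENNReal.ofReal_pow (norm_nonneg _)]
  rw [← ENNReal.ofReal_add (by positivity) (by positivity),
    ← ENNReal.ofReal_add (by positivity) (by positivity)]
  have h2 : (2 : ENNReal) = ENNReal.ofReal 2 := by simp
  rw [h2, ← ENNReal.ofReal_mul (by norm_num)]
  congr 1
  nlinarith

theorem measurable_gs {h : ℝ → ℂ} (hm : Measurable h) (n : ℤ) : Measurable (gs h n) := by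
  unfold gs
  exact (hm.comp (measurable_const_mul _)).const_mul _

theorem memLp_gs {h : ℝ → ℂ} (hL : MemLp h 2 volume) (n : ℤ) : MemLp (gs h n) 2 volume := by
  unfold gs
  refine MemLp.const_mul ?_ _
  have hne : ((2:ℝ) ^ n) ≠ 0 := by positivity
  have e : (volume.map (fun y : ℝ => (2:ℝ) ^ n * y)) = ENNReal.ofReal |((2:ℝ) ^ n)⁻¹| • volume :=
    Real.map_volume_mul_left hne
  have h1 : MemLp h 2 (volume.map (fun y : ℝ => (2:ℝ) ^ n * y)) := by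
    rw [e]
    exact hL.smul_measure ENNReal.ofReal_ne_top
  exact h1.comp_of_map (by fun_prop)

theorem subst_one (h : ℝ → ℂ) (n : ℤ) (a b d : ℝ) :
    ∫⁻ y in Ioc a b, ‖gs h n (y + d)‖ₑ ^ 2
      = ∫⁻ x in Ioc ((2:ℝ) ^ n * (a + d)) ((2:ℝ) ^ n * (b + d)), ‖h x‖ₑ ^ 2 := by
  have h1 := lintegral_affine (fun x => ‖h x‖ₑ ^ 2) a b ((2:ℝ) ^ n) ((2:ℝ) ^ n * d) (by positivity)
  rw [← mul_add, ← mul_add] at h1
  rw [h1, ← lintegral_const_mul' _ _ ENNReal.ofReal_ne_top]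
  refine lintegral_congr fun y => ?_
  unfold gs
  rw [enorm_sq_sqrt _ (by positivity), mul_add]

theorem shift_tsum (F : ℤ → ENNReal) (m : ℤ) : ∑' n : ℤ, F (n + m) = ∑' n : ℤ, F n :=
  (Equiv.addRight m).tsum_eq F

theorem tile_pos (φ : ℝ → ENNReal) (a : ℝ) (ha : 0 < a) :
    ∑' n : ℤ, ∫⁻ x in Ioc ((2:ℝ) ^ n * a) ((2:ℝ) ^ n * (2 * a)), φ x = ∫⁻ x in Ioi 0, φ x := by
  rw [← lintegral_iUnion (fun _ => measurableSet_Ioc)]
  · congr 2
    ext x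
    simp only [mem_iUnion, mem_Ioc, mem_Ioi]
    constructor
    · rintro ⟨n, h1, h2⟩
      have : 0 < (2:ℝ) ^ n * a := by positivity
      linarith
    · intro hx
      obtain ⟨n, hn1, hn2⟩ := exists_mem_Ioc_zpow (div_pos hx ha) (one_lt_two : (1:ℝ) < 2)
      refine ⟨n, by rwa [lt_div_iff₀ ha] at hn1, ?_⟩
      rw [div_le_iff₀ ha, zpow_add_one₀ (by norm_num)] at hn2
      linarith
  · have key : ∀ n m : ℤ, n < m → Disjoint (Ioc ((2:ℝ) ^ n * a) ((2:ℝ) ^ n * (2 * a)))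
        (Ioc ((2:ℝ) ^ m * a) ((2:ℝ) ^ m * (2 * a))) := by
      intro n m hnm
      apply Ioc_disjoint_Ioc_of_le
      have : (2:ℝ) ^ (n + 1) ≤ (2:ℝ) ^ m := zpow_le_zpow_right₀ (by norm_num) (by omega)
      rw [zpow_add_one₀ (by norm_num)] at this
      nlinarith
    intro n m hnm
    rcases lt_or_gt_of_ne hnm with h | h
    · exact key n m h
    · exact (key m n h).symm

theorem tile_neg (φ : ℝ → ENNReal) (a : ℝ) (ha : 0 < a) :
    ∑' n : ℤ, ∫⁻ x in Ioc ((2:ℝ) ^ n * (-(2 * a))) ((2:ℝ) ^ n * (-a)), φ x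
      = ∫⁻ x in Iio 0, φ x := by
  rw [← lintegral_iUnion (fun _ => measurableSet_Ioc)]
  · congr 2
    ext x
    simp only [mem_iUnion, mem_Ioc, mem_Iio]
    constructor
    · rintro ⟨n, h1, h2⟩
      have : 0 < (2:ℝ) ^ n * a := by positivity
      linarith
    · intro hx
      obtain ⟨n, hn1, hn2⟩ := exists_mem_Ico_zpow (div_pos (neg_pos.2 hx) ha)
        (one_lt_two : (1:ℝ) < 2)
      refine ⟨n, ?_, ?_⟩
      · rw [div_lt_iff₀ ha, zpow_add_one₀ (by norm_num)] at hn2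
        linarith
      · rw [le_div_iff₀ ha] at hn1
        linarith
  · have key : ∀ n m : ℤ, n < m → Disjoint (Ioc ((2:ℝ) ^ m * (-(2 * a))) ((2:ℝ) ^ m * (-a)))
        (Ioc ((2:ℝ) ^ n * (-(2 * a))) ((2:ℝ) ^ n * (-a))) := by
      intro n m hnm
      apply Ioc_disjoint_Ioc_of_le
      have : (2:ℝ) ^ (n + 1) ≤ (2:ℝ) ^ m := zpow_le_zpow_right₀ (by norm_num) (by omega)
      rw [zpow_add_one₀ (by norm_num)] at this
      nlinarith
    intro n m hnm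
    rcases lt_or_gt_of_ne hnm with h | h
    · exact (key n m h).symm
    · exact key m n h

end

end Pool.Agent.X282.WV
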