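import Pool.Agent.X282.WV.C4

/-! The sum over all scales: the identity. -/

namespace Pool.Agent.X282.WV

open MeasureTheory Set

noncomputable section

/-- mass of a scaled interval -/
def J (φ : ℝ → ENNReal) (a b : ℝ) (n : ℤ) : ENNReal :=
  ∫⁻ x in Ioc ((2:ℝ) ^ n * a) ((2:ℝ) ^ n * b), φ x

theorem J_double (φ : ℝ → ENNReal) (a b : ℝ) :
    ∑' n : ℤ, J φ a b n = ∑' n : ℤ, J φ (2 * a) (2 * b) n := by
  rw [← shift_tsum (fun n => J φ a b n) 1]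
  refine tsum_congr fun n => ?_
  unfold J
  rw [zpow_add_one₀ (by norm_num)]
  congr 3 <;> ring

theorem J_split (φ : ℝ → ENNReal) (a b c : ℝ) (h1 : a ≤ b) (h2 : b ≤ c) (n : ℤ) :
    J φ a c n = J φ a b n + J φ b c n := by
  unfold J
  have : (0:ℝ) < 2 ^ n := by positivity
  exact split2 φ _ _ _ (by nlinarith) (by nlinarith)

theorem pos_sum (φ : ℝ → ENNReal) :
    ∑' n : ℤ, (J φ (3/7) (4/7) n + (J φ (1/7) (1/5) n + J φ (4/5) (6/7) n))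
      = ∫⁻ x in Ioi 0, φ x := by
  rw [ENNReal.tsum_add, ENNReal.tsum_add, J_double φ (1/7) (1/5)]
  have e : ∑' n : ℤ, J φ (4/5) (6/7) n = ∑' n : ℤ, J φ (2/5) (3/7) n := by
    rw [J_double φ (2/5) (3/7)]
    norm_num
  rw [e, ← ENNReal.tsum_add, ← ENNReal.tsum_add, ← tile_pos φ (2/7) (by norm_num)]
  refine tsum_congr fun n => ?_
  have h1 := J_split φ (2/7) (2/5) (4/7) (by norm_num) (by norm_num) n
  have h2 := J_split φ (2/5) (3/7) (4/7) (by norm_num) (by norm_num) n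
  have h3 : ∫⁻ x in Ioc ((2:ℝ) ^ n * (2/7)) ((2:ℝ) ^ n * (2 * (2/7))), φ x
      = J φ (2/7) (4/7) n := by
    unfold J; norm_num
  rw [h3, h1, h2]
  norm_num
  ring

theorem neg_sum (φ : ℝ → ENNReal) :
    ∑' n : ℤ, (J φ (-4/7) (-3/7) n + (J φ (-6/7) (-4/5) n + J φ (-1/5) (-1/7) n))
      = ∫⁻ x in Iio 0, φ x := by
  rw [ENNReal.tsum_add, ENNReal.tsum_add, J_double φ (-1/5) (-1/7)]
  have e : ∑' n : ℤ, J φ (-6/7) (-4/5) n = ∑' n : ℤ, J φ (-3/7) (-2/5) n := by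
    rw [J_double φ (-3/7) (-2/5)]
    norm_num
  rw [e, ← ENNReal.tsum_add, ← ENNReal.tsum_add, ← tile_neg φ (2/7) (by norm_num)]
  refine tsum_congr fun n => ?_
  have h1 := J_split φ (-4/7) (-3/7) (-2/7) (by norm_num) (by norm_num) n
  have h2 := J_split φ (-3/7) (-2/5) (-2/7) (by norm_num) (by norm_num) n
  have h3 : ∫⁻ x in Ioc ((2:ℝ) ^ n * (-(2 * (2/7)))) ((2:ℝ) ^ n * (-(2/7))), φ x
      = J φ (-4/7) (-2/7) n := by
    unfold J; norm_num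
  rw [h3, h1, h2]
  norm_num

theorem DE (h : ℝ → ℂ) (hm : Measurable h) (a b : ℝ) :
    (∑' n : ℤ, ∫⁻ y in Ioc a b, ‖gs h n y - gs h n (y - 1)‖ₑ ^ 2)
      + (∑' n : ℤ, ∫⁻ y in Ioc a b, ‖gs h n y + gs h n (y - 1)‖ₑ ^ 2)
      = 2 * ∑' n : ℤ, (J (fun x => ‖h x‖ₑ ^ 2) a b n
          + J (fun x => ‖h x‖ₑ ^ 2) (a - 1) (b - 1) n) := by
  rw [← ENNReal.tsum_add, ← ENNReal.tsum_mul_left]
  refine tsum_congr fun n => ?_
  have hg := measurable_gs hm n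
  have hg1 : Measurable fun y => gs h n (y - 1) := hg.comp (measurable_sub_const 1)
  have hgm : Measurable fun y => ‖gs h n y - gs h n (y - 1)‖ₑ ^ 2 :=
    (hg.sub hg1).enorm.pow_const 2
  rw [← lintegral_add_left hgm]
  simp_rw [parallel]
  have hgs : Measurable fun y => ‖gs h n y‖ₑ ^ 2 + ‖gs h n (y - 1)‖ₑ ^ 2 :=
    (hg.enorm.pow_const 2).add (hg1.enorm.pow_const 2)
  rw [lintegral_const_mul _ hgs, lintegral_add_left (hg.enorm.pow_const 2)]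
  have e1 := subst_one h n a b 0
  have e2 := subst_one h n a b (-1)
  simp only [add_zero] at e1
  simp only [← sub_eq_add_neg] at e2
  rw [e1, e2]
  rfl

theorem scale_rewrite {h : ℝ → ℂ} (hL : MemLp h 2 volume) (n : ℤ) :
    ∑' k : ℤ, ‖∫ y in OmI, Complex.exp (2 * Real.pi * Complex.I * (k + 1/2) * y) * gs h n y‖ₑ ^ 2
      = (∫⁻ y in Ioc (3/7 : ℝ) (4/7), ‖gs h (n + 1) y + gs h (n + 1) (y - 1)‖ₑ ^ 2)
        + ((∫⁻ y in Ioc (1/7 : ℝ) (1/5), ‖gs h n y - gs h n (y - 1)‖ₑ ^ 2)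
        + ((∫⁻ y in Ioc (4/5 : ℝ) (6/7), ‖gs h (n + 2) y + gs h (n + 2) (y - 1)‖ₑ ^ 2)
        + ((∫⁻ y in Ioc (3/7 : ℝ) (4/7), ‖gs h n y - gs h n (y - 1)‖ₑ ^ 2)
        + ((∫⁻ y in Ioc (1/7 : ℝ) (1/5), ‖gs h (n + 2) y + gs h (n + 2) (y - 1)‖ₑ ^ 2)
        + (∫⁻ y in Ioc (4/5 : ℝ) (6/7), ‖gs h n y - gs h n (y - 1)‖ₑ ^ 2))))) := by
  rw [scale_split (memLp_gs hL n)]
  have s1 := subst_sum h n 1 (3/7) (4/7) (-1)
  have s2 := subst_sum h n 2 (1/7) (1/5) 0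
  have s3 := subst_sum h n 2 (4/5) (6/7) (-3)
  have r1 : (2:ℝ) ^ 1 * (3/7) + -1 = -1/7 := by norm_num
  have r2 : (2:ℝ) ^ 1 * (4/7) + -1 = 1/7 := by norm_num
  have r3 : (2:ℝ) ^ 2 * (1/7) + 0 = 4/7 := by norm_num
  have r4 : (2:ℝ) ^ 2 * (1/5) + 0 = 4/5 := by norm_num
  have r5 : (2:ℝ) ^ 2 * (4/5) + -3 = 1/5 := by norm_num
  have r6 : (2:ℝ) ^ 2 * (6/7) + -3 = 3/7 := by norm_num
  rw [r1, r2] at s1
  rw [r3, r4] at s2
  rw [r5, r6] at s3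
  have f1 : ∀ x : ℝ, x - -1 = x + 1 := fun x => by ring
  have f2 : ∀ x : ℝ, x - -1 - 2 ^ 1 = x - 1 := fun x => by ring
  have f3 : ∀ x : ℝ, x - 0 = x := fun x => by ring
  have f4 : ∀ x : ℝ, x - 0 - 2 ^ 2 = x - 4 := fun x => by ring
  have f5 : ∀ x : ℝ, x - -3 = x + 3 := fun x => by ring
  have f6 : ∀ x : ℝ, x - -3 - 2 ^ 2 = x - 1 := fun x => by ring
  simp only [f2] at s1
  simp only [f1] at s1
  simp only [f4] at s2
  simp only [f3] at s2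
  simp only [f6] at s3
  simp only [f5] at s3
  push_cast at s1 s2 s3
  rw [s1, s2, s3]

theorem total {h : ℝ → ℂ} (hm : Measurable h) (hL : MemLp h 2 volume) :
    ∑' n : ℤ, ∑' k : ℤ,
      ‖∫ y in OmI, Complex.exp (2 * Real.pi * Complex.I * (k + 1/2) * y) * gs h n y‖ₑ ^ 2
      = 2 * ∫⁻ x, ‖h x‖ₑ ^ 2 := by
  simp_rw [scale_rewrite hL]
  simp only [ENNReal.tsum_add]
  have g1 := shift_tsum (fun n => ∫⁻ y in Ioc (3/7 : ℝ) (4/7),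
    ‖gs h n y + gs h n (y - 1)‖ₑ ^ 2) 1
  have g2 := shift_tsum (fun n => ∫⁻ y in Ioc (4/5 : ℝ) (6/7),
    ‖gs h n y + gs h n (y - 1)‖ₑ ^ 2) 2
  have g3 := shift_tsum (fun n => ∫⁻ y in Ioc (1/7 : ℝ) (1/5),
    ‖gs h n y + gs h n (y - 1)‖ₑ ^ 2) 2
  rw [g1, g2, g3]
  have d1 := DE h hm (3/7) (4/7)
  have d2 := DE h hm (1/7) (1/5)
  have d3 := DE h hm (4/5) (6/7)
  set φ : ℝ → ENNReal := fun x => ‖h x‖ₑ ^ 2 with hφ
  have q1 : (3/7 : ℝ) - 1 = -4/7 := by norm_num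
  have q2 : (4/7 : ℝ) - 1 = -3/7 := by norm_num
  have q3 : (1/7 : ℝ) - 1 = -6/7 := by norm_num
  have q4 : (1/5 : ℝ) - 1 = -4/5 := by norm_num
  have q5 : (4/5 : ℝ) - 1 = -1/5 := by norm_num
  have q6 : (6/7 : ℝ) - 1 = -1/7 := by norm_num
  rw [q1, q2, ENNReal.tsum_add] at d1
  rw [q3, q4, ENNReal.tsum_add] at d2
  rw [q5, q6, ENNReal.tsum_add] at d3
  have hp := pos_sum φ
  have hn := neg_sum φ
  rw [ENNReal.tsum_add, ENNReal.tsum_add] at hp hn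
  have hsplit : ∫⁻ x, φ x = (∫⁻ x in Ioi 0, φ x) + ∫⁻ x in Iio 0, φ x := by
    have hu : (Ioi (0:ℝ)) ∪ Iic 0 = univ := by ext x; simp
    rw [← setLIntegral_univ, ← hu, lintegral_union measurableSet_Iic]
    · congr 1
      exact setLIntegral_congr Iio_ae_eq_Iic.symm
    · rw [Set.disjoint_left]; intro x h1 h2; simp at h1 h2; linarith
  rw [hsplit, ← hp, ← hn]
  have : ∀ a1 a2 a3 b1 b2 b3 u1 u2 u3 v1 v2 v3 : ENNReal, a1 + b1 = 2 * (u1 + v1) →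
      a2 + b2 = 2 * (u2 + v2) → a3 + b3 = 2 * (u3 + v3) →
      b1 + (a2 + (b3 + (a1 + (b2 + a3)))) = 2 * (u1 + (u2 + u3) + (v1 + (v2 + v3))) := by
    intro a1 a2 a3 b1 b2 b3 u1 u2 u3 v1 v2 v3 x1 x2 x3
    calc b1 + (a2 + (b3 + (a1 + (b2 + a3)))) = (a1 + b1) + (a2 + b2) + (a3 + b3) := by ring
      _ = _ := by rw [x1, x2, x3]; ring
  exact this _ _ _ _ _ _ _ _ _ _ _ _ d1 d2 d3

end

end Pool.Agent.X282.WV
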