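import Mathlib

/-! The set does not tile multiplicatively. -/

namespace Pool.Agent.X282.WV

open MeasureTheory Set

noncomputable section

/-- The set `±([1/7,1/5] ∪ [3/7,8/7] ∪ [16/5,24/7])`. -/
def Om : Set ℝ := {ξ | (1/7 ≤ |ξ| ∧ |ξ| ≤ 1/5) ∨ (3/7 ≤ |ξ| ∧ |ξ| ≤ 8/7) ∨
  (16/5 ≤ |ξ| ∧ |ξ| ≤ 24/7)}

/-- `Ω` tiles the line multiplicatively with multiplicity one by the automorphisms
`ξ ↦ a ξ`, `a ∈ A'`. -/
def Tiles (Ω : Set ℝ) (A' : Set ℝˣ) : Prop :=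
  ∀ᵐ ξ : ℝ, ∑' a : A', ((fun x : ℝ => ((a : ℝˣ) : ℝ) * x) '' Ω).indicator
    (fun _ => (1 : ENNReal)) ξ = 1

theorem mem_image_iff (a : ℝˣ) (ξ : ℝ) :
    ξ ∈ (fun x : ℝ => (a : ℝ) * x) '' Om ↔
      (|(a:ℝ)| * (1/7) ≤ |ξ| ∧ |ξ| ≤ |(a:ℝ)| * (1/5)) ∨
      (|(a:ℝ)| * (3/7) ≤ |ξ| ∧ |ξ| ≤ |(a:ℝ)| * (8/7)) ∨
      (|(a:ℝ)| * (16/5) ≤ |ξ| ∧ |ξ| ≤ |(a:ℝ)| * (24/7)) := by
  have ha : 0 < |(a:ℝ)| := abs_pos.2 a.ne_zero
  constructor
  · rintro ⟨x, hx, rfl⟩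
    simp only [abs_mul, mul_le_mul_iff_right₀ ha]
    exact hx
  · intro h
    refine ⟨ξ / a, ?_, by field_simp⟩
    have e : |ξ| = |(a:ℝ)| * |ξ / a| := by
      rw [← abs_mul]; congr 1; field_simp
    rw [e] at h
    simp only [mul_le_mul_iff_right₀ ha] at h
    exact h

section

variable {A' : Set ℝˣ} (hT : Tiles Om A')

include hT

theorem hit {l r : ℝ} (h : l < r) : ∃ ξ, l < ξ ∧ ξ < r ∧ ∃ a ∈ A',
    ξ ∈ (fun x : ℝ => (a : ℝ) * x) '' Om := by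
  obtain ⟨ξ, hξ, h1, h2⟩ := (MeasureTheory.Measure.dense_of_ae hT).exists_between h
  refine ⟨ξ, h1, h2, ?_⟩
  by_contra hcon
  push Not at hcon
  have h0 : ∑' a : A', ((fun x : ℝ => ((a : ℝˣ) : ℝ) * x) '' Om).indicator
    (fun _ => (1 : ENNReal)) ξ = 0 := by
    rw [ENNReal.tsum_eq_zero]
    intro a
    exact indicator_of_notMem (hcon a.1 a.2) _
  rw [mem_ofPred_eq, h0] at hξ
  exact zero_ne_one hξ

theorem disj {a b : ℝˣ} (ha : a ∈ A') (hb : b ∈ A') (hab : a ≠ b) {l r : ℝ} (h : l < r)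
    (h1 : ∀ ξ, l < ξ → ξ < r → ξ ∈ (fun x : ℝ => (a : ℝ) * x) '' Om)
    (h2 : ∀ ξ, l < ξ → ξ < r → ξ ∈ (fun x : ℝ => (b : ℝ) * x) '' Om) : False := by
  classical
  obtain ⟨ξ, hξ, g1, g2⟩ := (MeasureTheory.Measure.dense_of_ae hT).exists_between h
  rw [mem_ofPred_eq] at hξ
  have hne : (⟨a, ha⟩ : A') ≠ ⟨b, hb⟩ := fun h => hab (congrArg Subtype.val h)
  have h3 := ENNReal.sum_le_tsum (f := fun a : A' =>
    ((fun x : ℝ => ((a : ℝˣ) : ℝ) * x) '' Om).indicator (fun _ => (1 : ENNReal)) ξ)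
    {⟨a, ha⟩, ⟨b, hb⟩}
  rw [hξ, Finset.sum_pair hne] at h3
  simp only at h3
  rw [indicator_of_mem (h1 ξ g1 g2), indicator_of_mem (h2 ξ g1 g2)] at h3
  norm_num at h3

/-- Members whose image meets the gap of a fixed member are of a definite size. -/
theorem size {a b : ℝˣ} (ha : a ∈ A') (hb : b ∈ A') {ξ : ℝ}
    (h1 : |(a:ℝ)| * (1/5) < ξ) (h2 : ξ < |(a:ℝ)| * (3/7))
    (hm : ξ ∈ (fun x : ℝ => (b : ℝ) * x) '' Om) :
    |(a:ℝ)| ≤ 16 * |(b:ℝ)| ∧ 8 * |(b:ℝ)| ≤ |(a:ℝ)| ∧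
      |(b:ℝ)| * (16/5) ≤ ξ ∧ ξ ≤ |(b:ℝ)| * (24/7) := by
  have hs : 0 < |(a:ℝ)| := abs_pos.2 a.ne_zero
  have ht : 0 < |(b:ℝ)| := abs_pos.2 b.ne_zero
  set s := |(a:ℝ)| with hsdef
  set t := |(b:ℝ)| with htdef
  have hξ : |ξ| = ξ := abs_of_pos (by nlinarith)
  rw [mem_image_iff, hξ] at hm
  have hab : a ≠ b := by
    rintro rfl
    rcases hm with ⟨g1, g2⟩ | ⟨g1, g2⟩ | ⟨g1, g2⟩ <;> linarith
  -- a general overlap principle
  have key : ∀ p q p' q' : ℝ,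
      ((p = 1/7 ∧ q = 1/5) ∨ (p = 3/7 ∧ q = 8/7) ∨ (p = 16/5 ∧ q = 24/7)) →
      ((p' = 1/7 ∧ q' = 1/5) ∨ (p' = 3/7 ∧ q' = 8/7) ∨ (p' = 16/5 ∧ q' = 24/7)) →
      s * p < s * q → t * p' < t * q' → s * p < t * q' → t * p' < s * q → False := by
    intro p q p' q' hp hp' c1 c2 c3 c4
    have hlr : max (s * p) (t * p') < min (s * q) (t * q') := by
      rw [max_lt_iff, lt_min_iff, lt_min_iff]
      exact ⟨⟨c1, c3⟩, c4, c2⟩
    have hp0 : 0 ≤ max (s * p) (t * p') := by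
      refine le_max_of_le_left ?_
      rcases hp with ⟨rfl, -⟩ | ⟨rfl, -⟩ | ⟨rfl, -⟩ <;> positivity
    refine disj hT ha hb hab hlr ?_ ?_
    · intro ξ x1 x2
      have hξ0 : |ξ| = ξ := abs_of_nonneg (hp0.trans x1.le)
      rw [mem_image_iff, hξ0]
      have y1 := (le_max_left _ _).trans x1.le
      have y2 := x2.le.trans (min_le_left _ _)
      rcases hp with ⟨rfl, rfl⟩ | ⟨rfl, rfl⟩ | ⟨rfl, rfl⟩
      · exact Or.inl ⟨y1, y2⟩
      · exact Or.inr (Or.inl ⟨y1, y2⟩)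
      · exact Or.inr (Or.inr ⟨y1, y2⟩)
    · intro ξ x1 x2
      have hξ0 : |ξ| = ξ := abs_of_nonneg (hp0.trans x1.le)
      rw [mem_image_iff, hξ0]
      have y1 := (le_max_right _ _).trans x1.le
      have y2 := x2.le.trans (min_le_right _ _)
      rcases hp' with ⟨rfl, rfl⟩ | ⟨rfl, rfl⟩ | ⟨rfl, rfl⟩
      · exact Or.inl ⟨y1, y2⟩
      · exact Or.inr (Or.inl ⟨y1, y2⟩)
      · exact Or.inr (Or.inr ⟨y1, y2⟩)
  rcases hm with ⟨g1, g2⟩ | ⟨g1, g2⟩ | ⟨g1, g2⟩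
  · -- first piece: `s < t < 3 s`
    exfalso
    by_cases hc : t * 3 < s * 8
    · exact key (3/7) (8/7) (3/7) (8/7) (by norm_num) (by norm_num) (by linarith) (by linarith)
        (by linarith) (by linarith)
    · exact key (3/7) (8/7) (1/7) (1/5) (by norm_num) (by norm_num) (by linarith) (by linarith)
        (by linarith) (by linarith)
  · exfalso
    by_cases hc : s * 3 < t * 8
    · exact key (3/7) (8/7) (3/7) (8/7) (by norm_num) (by norm_num) (by linarith) (by linarith)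
        (by linarith) (by linarith)
    · exact key (1/7) (1/5) (3/7) (8/7) (by norm_num) (by norm_num) (by linarith) (by linarith)
        (by linarith) (by linarith)
  · refine ⟨?_, ?_, g1, g2⟩
    · by_contra hc
      push Not at hc
      exact key (1/7) (1/5) (16/5) (24/7) (by norm_num) (by norm_num) (by linarith) (by linarith)
        (by linarith) (by linarith)
    · by_contra hc
      push Not at hc
      exact key (3/7) (8/7) (16/5) (24/7) (by norm_num) (by norm_num) (by linarith) (by linarith)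
        (by linarith) (by linarith)

theorem not_tiles : False := by
  obtain ⟨_, _, _, a, ha, -⟩ := hit hT (zero_lt_one : (0:ℝ) < 1)
  have hs : 0 < |(a:ℝ)| := abs_pos.2 a.ne_zero
  obtain ⟨ξ, x1, x2, b, hb, hξ⟩ := hit hT (l := |(a:ℝ)| * (1/5)) (r := |(a:ℝ)| * (21/100))
    (by linarith)
  obtain ⟨η, y1, y2, c, hc, hη⟩ := hit hT (l := |(a:ℝ)| * (41/100)) (r := |(a:ℝ)| * (3/7))
    (by linarith)
  obtain ⟨b1, b2, b3, b4⟩ := size hT ha hb x1 (by linarith) hξ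
  obtain ⟨c1, c2, c3, c4⟩ := size hT ha hc (by linarith) y2 hη
  have hbc : b ≠ c := by
    rintro rfl
    linarith
  have hb0 : 0 < |(b:ℝ)| := abs_pos.2 b.ne_zero
  have hc0 : 0 < |(c:ℝ)| := abs_pos.2 c.ne_zero
  refine disj hT hb hc hbc (l := |(c:ℝ)| * (3/7)) (r := |(b:ℝ)| * (8/7)) (by linarith) ?_ ?_
  · intro ζ z1 z2
    rw [mem_image_iff, abs_of_pos (a := ζ) (by nlinarith)]
    exact Or.inr (Or.inl ⟨by linarith, by linarith⟩)
  · intro ζ z1 z2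
    rw [mem_image_iff, abs_of_pos (a := ζ) (by nlinarith)]
    exact Or.inr (Or.inl ⟨by linarith, by linarith⟩)

end

end

end Pool.Agent.X282.WV
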