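import Pool.Agent.X282.WV.A
import Pool.Agent.X282.WV.B
import Pool.Agent.X282.WV.C5
import Pool.Agent.X282.WV.D

/-! The wavelet system is an orthogonal basis. -/

namespace Pool.Agent.X282.WV

open MeasureTheory Set FourierTransform

noncomputable section

/-- `ψ_{l,a}(x) = |a|^{1/2} ψ(a x - l)`. -/
def member (ψ : ℝ → ℂ) (a : ℝˣ) (l : ℝ) (x : ℝ) : ℂ :=
  (Real.sqrt |(a:ℝ)| : ℂ) * ψ ((a:ℝ) * x - l)

/-- `Ω` is a wavelet set for the dilations `A` and the translations `Λ`. -/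
def IsWaveletSet (Ω : Set ℝ) (A : Set ℝˣ) (Λ : Set ℝ) : Prop :=
  ∃ (hΩ : MeasurableSet Ω) (hfin : volume Ω ≠ ⊤), 0 < volume Ω ∧
    ∃ ψ : Lp ℂ 2 (volume : Measure ℝ), 𝓕 ψ = indicatorConstLp 2 hΩ hfin (1 : ℂ) ∧
      ∃ w : Λ × A → Lp ℂ 2 (volume : Measure ℝ),
        (∀ p, w p =ᵐ[volume] member ψ p.2 p.1) ∧ (∀ p, w p ≠ 0) ∧
        (Pairwise fun p q => inner ℂ (w p) (w q) = 0) ∧
        (Submodule.span ℂ (Set.range w)).topologicalClosure = ⊤

theorem Om_closed : IsClosed Om := by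
  have : Om = ((fun ξ : ℝ => |ξ|) ⁻¹' Icc (1/7) (1/5)) ∪
      (((fun ξ : ℝ => |ξ|) ⁻¹' Icc (3/7) (8/7)) ∪ ((fun ξ : ℝ => |ξ|) ⁻¹' Icc (16/5) (24/7))) := by
    ext ξ; simp [Om]
  rw [this]
  exact (isClosed_Icc.preimage continuous_abs).union
    ((isClosed_Icc.preimage continuous_abs).union (isClosed_Icc.preimage continuous_abs))

theorem measurableSet_Om : MeasurableSet Om := Om_closed.measurableSet

theorem Om_sub : Om ⊆ Icc (-4) 4 := by
  intro ξ hξ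
  have : |ξ| ≤ 4 := by
    rcases hξ with ⟨_, h⟩ | ⟨_, h⟩ | ⟨_, h⟩ <;> linarith
  exact abs_le.1 this

theorem volume_Om_ne : volume Om ≠ ⊤ :=
  ((measure_mono Om_sub).trans_lt (by simp)).ne

theorem Om_ae : Om =ᵐ[volume] OmI := by
  have e : Om = Icc (-24/7) (-16/5) ∪ Icc (-8/7) (-3/7) ∪ Icc (-1/5) (-1/7)
      ∪ Icc (1/7) (1/5) ∪ Icc (3/7) (8/7) ∪ Icc (16/5) (24/7) := by
    ext ξ
    simp only [Om, mem_union, mem_Icc, mem_ofPred_eq]
    constructor
    · rcases le_total 0 ξ with h | h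
      · rw [abs_of_nonneg h]
        rintro (h1 | h1 | h1)
        · exact Or.inl (Or.inl (Or.inr h1))
        · exact Or.inl (Or.inr h1)
        · exact Or.inr h1
      · rw [abs_of_nonpos h]
        rintro (⟨h1, h2⟩ | ⟨h1, h2⟩ | ⟨h1, h2⟩)
        · exact Or.inl (Or.inl (Or.inl (Or.inr ⟨by linarith, by linarith⟩)))
        · exact Or.inl (Or.inl (Or.inl (Or.inl (Or.inr ⟨by linarith, by linarith⟩))))
        · exact Or.inl (Or.inl (Or.inl (Or.inl (Or.inl ⟨by linarith, by linarith⟩))))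
    · rintro (((((⟨h1, h2⟩ | ⟨h1, h2⟩) | ⟨h1, h2⟩) | ⟨h1, h2⟩) | ⟨h1, h2⟩) | ⟨h1, h2⟩)
      · rw [abs_of_nonpos (by linarith)]
        exact Or.inr (Or.inr ⟨by linarith, by linarith⟩)
      · rw [abs_of_nonpos (by linarith)]
        exact Or.inr (Or.inl ⟨by linarith, by linarith⟩)
      · rw [abs_of_nonpos (by linarith)]
        exact Or.inl ⟨by linarith, by linarith⟩
      · rw [abs_of_nonneg (by linarith)]
        exact Or.inl ⟨by linarith, by linarith⟩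
      · rw [abs_of_nonneg (by linarith)]
        exact Or.inr (Or.inl ⟨by linarith, by linarith⟩)
      · rw [abs_of_nonneg (by linarith)]
        exact Or.inr (Or.inr ⟨by linarith, by linarith⟩)
  rw [e]
  unfold OmI
  exact ((((Ioc_ae_eq_Icc.symm.union Ioc_ae_eq_Icc.symm).union Ioc_ae_eq_Icc.symm).union
    Ioc_ae_eq_Icc.symm).union Ioc_ae_eq_Icc.symm).union Ioc_ae_eq_Icc.symm

theorem volume_OmI : volume OmI = 2 := by
  unfold OmI
  rw [measure_union _ measurableSet_Ioc, measure_union _ measurableSet_Ioc,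
    measure_union _ measurableSet_Ioc, measure_union _ measurableSet_Ioc,
    measure_union _ measurableSet_Ioc]
  · simp only [Real.volume_Ioc]
    rw [← ENNReal.ofReal_add (by norm_num) (by norm_num),
      ← ENNReal.ofReal_add (by norm_num) (by norm_num),
      ← ENNReal.ofReal_add (by norm_num) (by norm_num),
      ← ENNReal.ofReal_add (by norm_num) (by norm_num),
      ← ENNReal.ofReal_add (by norm_num) (by norm_num)]
    norm_num
  all_goals
    rw [Set.disjoint_left]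
    intro x hx hx2
    simp only [mem_union, mem_Ioc] at hx hx2
    obtain ⟨z1, z2⟩ := hx2
    norm_num at z1 z2 hx
    first
    | (rcases hx with ((((⟨h1, h2⟩ | ⟨h1, h2⟩) | ⟨h1, h2⟩) | ⟨h1, h2⟩) | ⟨h1, h2⟩) <;> linarith)
    | (rcases hx with (((⟨h1, h2⟩ | ⟨h1, h2⟩) | ⟨h1, h2⟩) | ⟨h1, h2⟩) <;> linarith)
    | (rcases hx with ((⟨h1, h2⟩ | ⟨h1, h2⟩) | ⟨h1, h2⟩) <;> linarith)
    | (rcases hx with (⟨h1, h2⟩ | ⟨h1, h2⟩) <;> linarith)
    | (obtain ⟨h1, h2⟩ := hx; linarith)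

theorem volume_Om : volume Om = 2 := by rw [measure_congr Om_ae, volume_OmI]

/-- The indicator function of the wavelet set. -/
def ind : ℝ → ℂ := Om.indicator (fun _ => 1)

/-- The Fourier transform of `ψ_{k+1/2, 2^n}`. -/
def Hf (n k : ℤ) (ξ : ℝ) : ℂ :=
  ((Real.sqrt ((2:ℝ) ^ n) : ℝ) : ℂ)⁻¹ *
    (Complex.exp (-(2 * Real.pi * Complex.I * (k + 1/2) * (ξ / (2:ℝ) ^ n))) *
      ind (ξ / (2:ℝ) ^ n))

theorem measurable_ind : Measurable ind := measurable_const.indicator measurableSet_Om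

theorem memLp_ind (p : ENNReal) : MemLp ind p volume :=
  memLp_indicator_const p measurableSet_Om 1 (Or.inr volume_Om_ne)

theorem measurable_Hf (n k : ℤ) : Measurable (Hf n k) := by
  unfold Hf
  refine Measurable.const_mul ?_ _
  refine Measurable.mul ?_ ?_
  · exact (Continuous.measurable (by fun_prop))
  · exact measurable_ind.comp (measurable_id.div_const _)

theorem memLp_ind_div (p : ENNReal) (n : ℤ) :
    MemLp (fun ξ : ℝ => ind (ξ / (2:ℝ) ^ n)) p volume := by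
  have hne : ((2:ℝ) ^ n)⁻¹ ≠ 0 := by positivity
  have e : (volume.map (fun y : ℝ => ((2:ℝ) ^ n)⁻¹ * y))
      = ENNReal.ofReal |(((2:ℝ) ^ n)⁻¹)⁻¹| • volume :=
    Real.map_volume_mul_left hne
  have h1 : MemLp ind p (volume.map (fun y : ℝ => ((2:ℝ) ^ n)⁻¹ * y)) := by
    rw [e]
    exact (memLp_ind p).smul_measure ENNReal.ofReal_ne_top
  have h2 := h1.comp_of_map (by fun_prop)
  refine h2.congr_norm ?_ ?_
  · exact (measurable_ind.comp (measurable_id.div_const _)).aestronglyMeasurable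
  · refine Filter.Eventually.of_forall fun y => ?_
    simp only [Function.comp, div_eq_inv_mul]

theorem norm_e' (c x : ℝ) : ‖Complex.exp (-(2 * Real.pi * Complex.I * c * x))‖ = 1 := by
  have : (-(2 * Real.pi * Complex.I * c * x) : ℂ) = ((-(2 * Real.pi * c * x) : ℝ) : ℂ) * Complex.I := by
    push_cast; ring
  rw [this, Complex.norm_exp_ofReal_mul_I]

theorem memLp_Hf (p : ENNReal) (n k : ℤ) : MemLp (Hf n k) p volume := by
  have h := (memLp_ind_div p n).const_mul (((Real.sqrt ((2:ℝ) ^ n) : ℝ) : ℂ)⁻¹)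
  refine h.congr_norm (measurable_Hf n k).aestronglyMeasurable ?_
  refine Filter.Eventually.of_forall fun ξ => ?_
  unfold Hf
  rw [norm_mul, norm_mul, norm_mul]
  have := norm_e' (k + 1/2) (ξ / (2:ℝ)^n)
  push_cast at this
  push_cast
  rw [this, one_mul]

theorem fourierInv_formula (f : ℝ → ℂ) (x : ℝ) :
    𝓕⁻ f x = ∫ ξ : ℝ, Complex.exp (2 * Real.pi * Complex.I * x * ξ) * f ξ := by
  rw [Real.fourierInv_eq']
  refine integral_congr_ae (Filter.Eventually.of_forall fun ξ => ?_)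
  simp only [smul_eq_mul]
  congr 2
  simp
  ring

theorem fourierInv_Hf (n k : ℤ) (x : ℝ) :
    𝓕⁻ (Hf n k) x = ((Real.sqrt ((2:ℝ) ^ n) : ℝ) : ℂ) * 𝓕⁻ ind ((2:ℝ) ^ n * x - (k + 1/2)) := by
  rw [fourierInv_formula, fourierInv_formula]
  set G : ℝ → ℂ := fun η => ((Real.sqrt ((2:ℝ) ^ n) : ℝ) : ℂ)⁻¹ *
    (Complex.exp (2 * Real.pi * Complex.I * (((2:ℝ) ^ n * x - (k + 1/2) : ℝ) : ℂ) * η) * ind η)
    with hG
  have h1 : ∀ ξ : ℝ, Complex.exp (2 * Real.pi * Complex.I * x * ξ) * Hf n k ξ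
      = G (ξ / (2:ℝ) ^ n) := by
    intro ξ
    simp only [hG, Hf]
    have h2 : (2 * Real.pi * Complex.I * (((2:ℝ) ^ n * x - (k + 1/2) : ℝ) : ℂ)
        * ((ξ / (2:ℝ) ^ n : ℝ) : ℂ) : ℂ) = 2 * Real.pi * Complex.I * x * ξ
          + -(2 * Real.pi * Complex.I * (k + 1/2) * (ξ / (2:ℝ) ^ n)) := by
      push_cast
      have : (2:ℂ) ^ n ≠ 0 := zpow_ne_zero _ two_ne_zero
      field_simp
      ring
    rw [h2, Complex.exp_add]
    push_cast
    ring
  simp_rw [h1]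
  rw [Measure.integral_comp_div, abs_of_pos (by positivity), hG, integral_const_mul]
  have hs : ((2:ℝ) ^ n : ℝ) = Real.sqrt ((2:ℝ) ^ n) * Real.sqrt ((2:ℝ) ^ n) :=
    (Real.mul_self_sqrt (by positivity)).symm
  have hs0 : ((Real.sqrt ((2:ℝ) ^ n) : ℝ) : ℂ) ≠ 0 := by
    rw [Ne, Complex.ofReal_eq_zero, Real.sqrt_eq_zero']
    have : (0:ℝ) < (2:ℝ) ^ n := by positivity
    linarith
  rw [Complex.real_smul]
  have key : ∀ I : ℂ, (((2:ℝ) ^ n : ℝ) : ℂ) * ((((Real.sqrt ((2:ℝ) ^ n) : ℝ) : ℂ)⁻¹) * I)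
      = ((Real.sqrt ((2:ℝ) ^ n) : ℝ) : ℂ) * I := by
    intro I
    have hs' : (((2:ℝ) ^ n : ℝ) : ℂ) = ((Real.sqrt ((2:ℝ) ^ n) : ℝ) : ℂ) *
        ((Real.sqrt ((2:ℝ) ^ n) : ℝ) : ℂ) := by
      rw [← Complex.ofReal_mul, ← hs]
    rw [hs', mul_assoc, mul_inv_cancel_left₀ hs0]
  exact key _

end

end Pool.Agent.X282.WV
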