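import Pool.Agent.X282.WV.E

/-! Assembly. -/

namespace Pool.Agent.X282.WV

open MeasureTheory Set FourierTransform

noncomputable section

/-- `Hf n k` as an element of `L²`. -/
def Hlp (n k : ℤ) : Lp ℂ 2 (volume : Measure ℝ) := (memLp_Hf 2 n k).toLp (Hf n k)

theorem exp_conj (c x : ℝ) : (starRingEnd ℂ) (Complex.exp (-(2 * Real.pi * Complex.I * c * x)))
    = Complex.exp (2 * Real.pi * Complex.I * c * x) := by
  rw [← Complex.exp_conj]
  congr 1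
  simp [map_ofNat]

theorem ind_conj (x : ℝ) : (starRingEnd ℂ) (ind x) = ind x := by
  unfold ind
  by_cases h : x ∈ Om <;> simp [h]

theorem sqrt_ne (n : ℤ) : ((Real.sqrt ((2:ℝ) ^ n) : ℝ) : ℂ) ≠ 0 := by
  rw [Ne, Complex.ofReal_eq_zero, Real.sqrt_eq_zero']
  have : (0:ℝ) < (2:ℝ) ^ n := by positivity
  linarith

theorem sqrt_key (n : ℤ) (I : ℂ) :
    (((2:ℝ) ^ n : ℝ) : ℂ) * ((((Real.sqrt ((2:ℝ) ^ n) : ℝ) : ℂ)⁻¹) * I)
      = ((Real.sqrt ((2:ℝ) ^ n) : ℝ) : ℂ) * I := by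
  have hs : ((2:ℝ) ^ n : ℝ) = Real.sqrt ((2:ℝ) ^ n) * Real.sqrt ((2:ℝ) ^ n) :=
    (Real.mul_self_sqrt (by positivity)).symm
  have hs' : (((2:ℝ) ^ n : ℝ) : ℂ) = ((Real.sqrt ((2:ℝ) ^ n) : ℝ) : ℂ) *
      ((Real.sqrt ((2:ℝ) ^ n) : ℝ) : ℂ) := by
    rw [← Complex.ofReal_mul, ← hs]
  rw [hs', mul_assoc, mul_inv_cancel_left₀ (sqrt_ne n)]

theorem inner_eq {u : ℝ → ℂ} (hu : MemLp u 2 volume) (n k : ℤ) :
    inner ℂ (Hlp n k) (hu.toLp u)
      = ∫ y in OmI, Complex.exp (2 * Real.pi * Complex.I * (k + 1/2) * y) * gs u n y := by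
  rw [L2.inner_def]
  set G : ℝ → ℂ := fun η => ((Real.sqrt ((2:ℝ) ^ n) : ℝ) : ℂ)⁻¹ *
    (Complex.exp (2 * Real.pi * Complex.I * (k + 1/2) * η) * ind η * u ((2:ℝ) ^ n * η)) with hG
  have h1 : ∫ x, inner ℂ ((Hlp n k : Lp ℂ 2 (volume : Measure ℝ)) x) ((hu.toLp u) x)
      = ∫ x, G (x / (2:ℝ) ^ n) := by
    refine integral_congr_ae ?_
    filter_upwards [hu.coeFn_toLp, (memLp_Hf 2 n k).coeFn_toLp] with x hx1 hx2
    unfold Hlp
    rw [hx1, hx2]
    simp only [RCLike.inner_apply, Hf, map_mul, map_inv₀, Complex.conj_ofReal, ind_conj, hG]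
    have e := exp_conj (k + 1/2) (x / (2:ℝ) ^ n)
    push_cast at e
    have e2 : (2:ℝ) ^ n * (x / (2:ℝ) ^ n) = x := by
      have : (2:ℝ) ^ n ≠ 0 := by positivity
      field_simp
    rw [e2]
    push_cast
    rw [e]
    ring
  rw [h1, Measure.integral_comp_div, abs_of_pos (by positivity), hG, integral_const_mul,
    Complex.real_smul, sqrt_key, ← integral_const_mul, ← setIntegral_congr_set Om_ae,
    ← integral_indicator measurableSet_Om]
  refine integral_congr_ae (Filter.Eventually.of_forall fun y => ?_)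
  unfold ind gs
  by_cases hy : y ∈ Om
  · simp only [hy, indicator_of_mem]
    ring
  · simp [hy]

theorem OmI_sub_Om : OmI ⊆ Om := by
  rintro ξ (((((⟨h1, h2⟩ | ⟨h1, h2⟩) | ⟨h1, h2⟩) | ⟨h1, h2⟩) | ⟨h1, h2⟩) | ⟨h1, h2⟩)
  · refine Or.inr (Or.inr ?_)
    rw [abs_of_nonpos (by linarith)]
    exact ⟨by linarith, by linarith⟩
  · refine Or.inr (Or.inl ?_)
    rw [abs_of_nonpos (by linarith)]
    exact ⟨by linarith, by linarith⟩
  · refine Or.inl ?_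
    rw [abs_of_nonpos (by linarith)]
    exact ⟨by linarith, by linarith⟩
  · refine Or.inl ?_
    rw [abs_of_nonneg (by linarith)]
    exact ⟨by linarith, by linarith⟩
  · refine Or.inr (Or.inl ?_)
    rw [abs_of_nonneg (by linarith)]
    exact ⟨by linarith, by linarith⟩
  · refine Or.inr (Or.inr ?_)
    rw [abs_of_nonneg (by linarith)]
    exact ⟨by linarith, by linarith⟩

theorem norm_Hlp (n k : ℤ) : ‖Hlp n k‖ ^ 2 = 2 := by
  have h := inner_eq (memLp_Hf 2 n k) n k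
  have h2 : ∫ y in OmI, Complex.exp (2 * Real.pi * Complex.I * (k + 1/2) * y) * gs (Hf n k) n y
      = ∫ y in OmI, (1 : ℂ) := by
    refine setIntegral_congr_fun measurableSet_OmI fun y hy => ?_
    have hy2 : ind y = 1 := by unfold ind; simp [OmI_sub_Om hy]
    have e2 : (2:ℝ) ^ n * y / (2:ℝ) ^ n = y := by
      have : (2:ℝ) ^ n ≠ 0 := by positivity
      field_simp
    have e3 : (((2:ℝ) ^ n * y : ℝ) : ℂ) / (2:ℂ) ^ n = y := by
      have := congrArg (fun t : ℝ => (t : ℂ)) e2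
      push_cast at this
      push_cast
      exact this
    simp only [gs, Hf, e2, hy2, mul_one]
    have e4 : ((Real.sqrt ((2:ℝ) ^ n) : ℝ) : ℂ) * (((Real.sqrt ((2:ℝ) ^ n) : ℝ) : ℂ)⁻¹ *
        Complex.exp (-(2 * Real.pi * Complex.I * (k + 1/2) *
          ((((2:ℝ) ^ n * y : ℝ) : ℂ) / (2:ℝ) ^ n)))) =
        Complex.exp (-(2 * Real.pi * Complex.I * (k + 1/2) * y)) := by
      rw [mul_inv_cancel_left₀ (sqrt_ne n)]
      push_cast
      push_cast at e3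
      rw [e3]
    rw [e4, ← Complex.exp_add]
    simp
  rw [h2] at h
  have h3 : ∫ y in OmI, (1 : ℂ) = 2 := by
    simp [Measure.real, volume_OmI]
  rw [h3] at h
  have h4 : inner ℂ (Hlp n k) (Hlp n k) = (2 : ℂ) := h
  rw [inner_self_eq_norm_sq_to_K] at h4
  have h5 : ((‖Hlp n k‖ ^ 2 : ℝ) : ℂ) = ((2 : ℝ) : ℂ) := by
    push_cast
    exact h4
  exact_mod_cast h5

/-- The wavelets. -/
def wv (n k : ℤ) : Lp ℂ 2 (volume : Measure ℝ) := 𝓕⁻ (Hlp n k)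

theorem norm_wv (n k : ℤ) : ‖wv n k‖ ^ 2 = 2 := by
  have h := Lp.norm_fourier_eq (wv n k)
  rw [← h]
  unfold wv
  rw [fourier_fourierInv_eq]
  exact norm_Hlp n k

theorem lintegral_sq (u : Lp ℂ 2 (volume : Measure ℝ)) :
    ∫⁻ x, ‖u x‖ₑ ^ 2 = ENNReal.ofReal (‖u‖ ^ 2) := by
  have h := eLpNorm_nnreal_pow_eq_lintegral (μ := volume) (f := (u : ℝ → ℂ)) (p := 2)
    (by norm_num)
  simp only [NNReal.coe_ofNat, ENNReal.coe_ofNat, ENNReal.rpow_ofNat] at h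
  rw [← h, ENNReal.ofReal_pow (norm_nonneg _), ofReal_norm, Lp.enorm_def]

theorem parseval_wv (h : Lp ℂ 2 (volume : Measure ℝ)) :
    ∑' n : ℤ, ∑' k : ℤ, ‖inner ℂ (wv n k) h‖ₑ ^ 2 = ENNReal.ofReal (2 * ‖h‖ ^ 2) := by
  have h1 : ∀ n k : ℤ, inner ℂ (wv n k) h
      = ∫ y in OmI, Complex.exp (2 * Real.pi * Complex.I * (k + 1/2) * y)
        * gs (𝓕 h : Lp ℂ 2 (volume : Measure ℝ)) n y := by
    intro n k
    rw [← Lp.inner_fourier_eq, ← inner_eq (Lp.memLp (𝓕 h : Lp ℂ 2 (volume : Measure ℝ))) n k,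
      Lp.toLp_coeFn]
    unfold wv
    rw [fourier_fourierInv_eq]
  simp_rw [h1]
  rw [total (Lp.stronglyMeasurable _).measurable (Lp.memLp _), lintegral_sq, Lp.norm_fourier_eq,
    ENNReal.ofReal_mul (by norm_num)]
  simp

end

end Pool.Agent.X282.WV
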